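import Pool.Agent.H6.FIB.TargetsP
import Pool.Agent.H2.FI.AID

/-! Row PID of fib_modules: the condition on the indices. -/

set_option autoImplicit false

open FI AMc AMt
open Pool.Agent.H2.FI (index_hom)

namespace Pool.Agent.H37.FIB

theorem PID_iso (h2 : T_SQ) {A B : Type} [Group A] [Finite A] [Group B] [Finite B] (f : A →* B)
    (hi : Function.Injective f) (hs : Function.Surjective f) :
    (sol A).index = (sol B).index := by
  refine (h2 A B f hs ?_).1
  rw [(MonoidHom.ker_eq_bot_iff f).2 hi]
  infer_instance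

theorem PID_claim (h2 : T_SQ) (h5 : T_PCL) (h6 : T_PST) (h7 : T_PSK) (h8 : T_RMU) (e : ℝ)
    (he : 1 ≤ e) (𝒜 : (A : Type) → [Group A] → Prop) (hC : Cls e 𝒜) :
    ∀ (n : ℕ) (X : Type) [Group X] [Finite X], Nat.card X ≤ n → KA 𝒜 X → sol X = ⊥ →
    ∀ T : Subgroup X, (Nat.card X : ℝ) ≤ (T.index : ℝ) ^ e * ((sol T).index : ℝ) := by
  intro n
  induction n with
  | zero =>
    intro X _ _ hn
    exact absurd (Nat.card_pos (α := X)) (by omega)
  | succ n ih =>
    intro X _ _ hn hK hs T
    have hTi : 1 ≤ T.index := Nat.one_le_iff_ne_zero.mpr T.index_ne_zero_of_finite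
    have hTs : 1 ≤ (sol T).index := Nat.one_le_iff_ne_zero.mpr (sol T).index_ne_zero_of_finite
    rcases subsingleton_or_nontrivial X with hX | hX
    · have hc : Nat.card X ≤ 1 := Finite.card_le_one_iff_subsingleton.mpr hX
      have h1' : (1 : ℝ) ≤ (T.index : ℝ) ^ e :=
        Real.one_le_rpow (by exact_mod_cast hTi) (by linarith)
      have h2' : (1 : ℝ) ≤ ((sol T).index : ℝ) := by exact_mod_cast hTs
      have h3' : (Nat.card X : ℝ) ≤ 1 := by exact_mod_cast hc
      nlinarith
    · obtain ⟨A, _, _, S, L, _, γ, hA, hAl, -, hγ, hLK, hLS, -⟩ := h6 e 𝒜 hC X hK hs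
      obtain ⟨hsK, -, -, hlt, -, -, hcard⟩ := h7 X A S L γ hs hAl hγ hLK hLS
      have hKK : KA 𝒜 γ.ker := (h5 e 𝒜 hC).sub γ.ker X γ.ker.subtype γ.ker.subtype_injective hK
      have a1 := ih γ.ker (by omega) hKK hsK (T.subgroupOf γ.ker)
      have a2 := hC.idx A hA (T.map γ)
      have hsA : (sol A).index ≤ Nat.card A := by
        exact Nat.le_of_dvd Nat.card_pos (Subgroup.index_dvd_card _)
      have a3 := h8 T (T.map γ) (γ.subgroupMap T) (γ.subgroupMap_surjective T)
      have hker : ∀ x : (γ.subgroupMap T).ker, γ ((x : T) : X) = 1 := by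
        intro x
        have hx : γ.subgroupMap T x.1 = 1 := x.2
        exact congrArg (fun z : T.map γ => (z : A)) hx
      let φ : (γ.subgroupMap T).ker →* T.subgroupOf γ.ker :=
        { toFun := fun x => ⟨⟨((x : T) : X), hker x⟩, (x : T).2⟩
          map_one' := rfl
          map_mul' := fun _ _ => rfl }
      have hφi : Function.Injective φ := by
        intro x y hxy
        have h' := congrArg (fun z : T.subgroupOf γ.ker => ((z : γ.ker) : X)) hxy
        exact Subtype.ext (Subtype.ext h')
      have hφs : Function.Surjective φ := by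
        rintro ⟨⟨x, hx⟩, hxT⟩
        exact ⟨⟨⟨x, hxT⟩, Subtype.ext hx⟩, rfl⟩
      have a4 : (sol (γ.subgroupMap T).ker).index = (sol (T.subgroupOf γ.ker)).index :=
        PID_iso h2 φ hφi hφs
      have a5 : T.index = (T.map γ).index * (T.subgroupOf γ.ker).index := by
        have h := index_hom γ T
        rwa [MonoidHom.range_eq_top.2 hγ, Subgroup.relIndex_top_right] at h
      rw [a4] at a3
      rw [hcard, a5]
      push_cast
      rw [Real.mul_rpow (Nat.cast_nonneg _) (Nat.cast_nonneg _)]
      have a3' : ((sol (T.subgroupOf γ.ker)).index : ℝ) * ((sol (T.map γ)).index : ℝ) ≤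
          ((sol T).index : ℝ) := by exact_mod_cast a3
      calc (Nat.card γ.ker : ℝ) * (Nat.card A : ℝ)
          ≤ (((T.subgroupOf γ.ker).index : ℝ) ^ e * ((sol (T.subgroupOf γ.ker)).index : ℝ)) *
            (((T.map γ).index : ℝ) ^ e * ((sol (T.map γ)).index : ℝ)) :=
            mul_le_mul a1 a2 (Nat.cast_nonneg _) (by positivity)
        _ = ((T.map γ).index : ℝ) ^ e * ((T.subgroupOf γ.ker).index : ℝ) ^ e *
            (((sol (T.subgroupOf γ.ker)).index : ℝ) * ((sol (T.map γ)).index : ℝ)) := by ring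
        _ ≤ ((T.map γ).index : ℝ) ^ e * ((T.subgroupOf γ.ker).index : ℝ) ^ e *
            ((sol T).index : ℝ) := mul_le_mul_of_nonneg_left a3' (by positivity)

theorem pf_PID (h1 : T_SOL) (h2 : T_SQ) (h3 : T_ALS) (h4 : T_PKR) (h5 : T_PCL) (h6 : T_PST)
    (h7 : T_PSK) (h8 : T_RMU) : T_PID := by
  have _ := h3
  have _ := h4
  intro e he 𝒜 hC X _ _ hK T
  have hsolX := (h1 X).1
  have hker : (QuotientGroup.mk' (sol X)).ker = sol X := QuotientGroup.ker_mk' _
  have hks : Group.IsSolvable (QuotientGroup.mk' (sol X)).ker := by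
    rw [hker]; exact hsolX
  have hKb : KA 𝒜 (X ⧸ sol X) :=
    (h5 e 𝒜 hC).quo X (X ⧸ sol X) (QuotientGroup.mk' (sol X)) (QuotientGroup.mk'_surjective _)
      hks hK
  have hsb : sol (X ⧸ sol X) = ⊥ := (h1 X).2.2.2
  have hA := PID_claim h2 h5 h6 h7 h8 e he 𝒜 hC _ (X ⧸ sol X) le_rfl hKb hsb
    (T.map (QuotientGroup.mk' (sol X)))
  have hi1 : (T.map (QuotientGroup.mk' (sol X))).index ≤ T.index :=
    Nat.le_of_dvd (Nat.pos_of_ne_zero T.index_ne_zero_of_finite)
      (T.index_map_dvd (QuotientGroup.mk'_surjective _))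
  have hsq : (sol T).index = (sol (T.map (QuotientGroup.mk' (sol X)))).index := by
    have hks2 : Group.IsSolvable ((QuotientGroup.mk' (sol X)).subgroupMap T).ker := by
      have hinj : Function.Injective
          ((T.subtype.comp ((QuotientGroup.mk' (sol X)).subgroupMap T).ker.subtype).codRestrict
            (sol X) (fun x => by
              have hx : ((QuotientGroup.mk' (sol X)).subgroupMap T) x.1 = 1 := x.2
              have hx2 := congrArg
                (fun z : T.map (QuotientGroup.mk' (sol X)) => (z : X ⧸ sol X)) hx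
              exact (QuotientGroup.eq_one_iff (N := sol X) _).mp hx2)) := by
        intro x y hxy
        have := congrArg (fun z : sol X => (z : X)) hxy
        exact Subtype.ext (Subtype.ext this)
      exact Group.isSolvable_of_isSolvable_injective hinj
    exact (h2 T (T.map (QuotientGroup.mk' (sol X))) _
      ((QuotientGroup.mk' (sol X)).subgroupMap_surjective T) hks2).1
  have hcard : (sol X).index = Nat.card (X ⧸ sol X) := Subgroup.index_eq_card _
  rw [hsq, hcard]
  refine hA.trans (mul_le_mul_of_nonneg_right ?_ (Nat.cast_nonneg _))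
  exact Real.rpow_le_rpow (Nat.cast_nonneg _) (by exact_mod_cast hi1) (by linarith)

end Pool.Agent.H37.FIB
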