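import Pool.Agent.H6.FIB.TargetsP

/-! Row PKC of fib_modules: the number of characters of `M C` over a character of `M`. -/

set_option autoImplicit false

open FI AMc AMt

namespace Pool.Agent.H37.FIB

theorem pf_PKC (h1 : T_PBJ) : T_PKC := by
  intro Γ A _ _ _ _ S Z M C δ hA hG ν hν φ hφ
  obtain ⟨F, hF, _⟩ := h1 Γ A S Z M C δ hA hG ν hν φ hφ
  unfold kk
  rw [← hF.image_eq, hF.injOn.ncard_image]

end Pool.Agent.H37.FIB
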